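import Pool.Agent.Lib.MP_29e7a7_co.PP.Fin

/-!
# MP_29e7a7_co, Q1: asymptotic path partition theorem

Any `k` prescribed detour orders `a 0, ..., a (k - 1)` whose sum is at least the detour number of a
graph `G` with `N` vertices can be realised by a colouring with `k` colours up to an error `η * N`,
for every `η > 0` and all graphs with at least `N₀ (η)` vertices. The number of vertices of a path
(its order) is `p.support.length`.
-/

set_option autoImplicit false

namespace Pool.Agent.Results.MP_29e7a7_co.AsymptoticPathPartition

/-- `t` is the detour number of `G`: the largest number of vertices of a path of `G` -/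
def IsDetourNumber {V : Type} (G : SimpleGraph V) (t : ℕ) : Prop :=
  IsGreatest {m : ℕ | ∃ (u v : V) (p : G.Walk u v), p.IsPath ∧ p.support.length = m} t

/-- For every `η > 0` there is `N₀` such that every graph `G` with `N ≥ N₀` vertices, every number
`k` of colours and all `a 0, ..., a (k - 1)` with sum at least the detour number of `G`: there is a
colouring with `k` colours in which every path with all vertices of colour `i` has at most
`a i + η * N` vertices. -/
theorem result (η : ℝ) (hη : 0 < η) : ∃ N₀ : ℕ, ∀ (V : Type) [Fintype V] (G : SimpleGraph V)
    (t k : ℕ) (a : Fin k → ℕ), N₀ ≤ Fintype.card V → IsDetourNumber G t → t ≤ ∑ i, a i →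
    ∃ c : V → Fin k, ∀ (i : Fin k) (u v : V) (p : G.Walk u v), p.IsPath →
      (∀ x ∈ p.support, c x = i) → (p.support.length : ℝ) ≤ a i + η * Fintype.card V :=
  Pool.Agent.Lib.MP_29e7a7_co.PP.f_uni η hη

end Pool.Agent.Results.MP_29e7a7_co.AsymptoticPathPartition
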