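import Pool.Agent.Lib.MP_29e7a7_co.OT.Main3

/-!
# MP_29e7a7_co, Q1: the bound `⌈τ / n⌉` up to a third of a colour, for all graphs and all `n`

The length of a path is its number of edges, so it has `p.length + 1` vertices.
-/

set_option autoImplicit false

namespace Pool.Agent.Results.MP_29e7a7_co.ThirdSurplus

open Pool.Agent.Lib.MP_29e7a7_co

/-- the detour number of `G`: the number of vertices of a longest path of `G` -/
noncomputable def tau {V : Type} (G : SimpleGraph V) : ℕ :=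
  sSup {m : ℕ | ∃ (u v : V) (p : G.Walk u v), p.IsPath ∧ m = p.length + 1}

/-- `f` is an `n`-detour colouring of `G`: no monochromatic path has length greater than `n` -/
def IsDetourColouring {V K : Type} (G : SimpleGraph V) (n : ℕ) (f : V → K) : Prop :=
  ∀ (u v : V) (p : G.Walk u v), p.IsPath → (∀ x ∈ p.support, f x = f u) → p.length ≤ n

/-- the `n`th detour chromatic number: the least number of colours of an `n`-detour colouring -/
noncomputable def chi {V : Type} (n : ℕ) (G : SimpleGraph V) : ℕ :=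
  sInf {k : ℕ | ∃ f : V → Fin k, IsDetourColouring G n f}

theorem det_tau {V : Type} [Fintype V] (G : SimpleGraph V) : PP.Det G Finset.univ (tau G) := by
  intro l hl _
  by_cases hne : l = []
  · subst hne
    exact Nat.zero_le _
  · refine le_csSup ?_ ?_
    · refine ⟨Fintype.card V, ?_⟩
      rintro m ⟨u, v, p, hp, rfl⟩
      exact Nat.succ_le_of_lt hp.length_lt
    · refine ⟨_, _, SimpleGraph.Walk.ofSupport l hne hl.2, ?_, ?_⟩
      · rw [SimpleGraph.Walk.isPath_def, SimpleGraph.Walk.support_ofSupport]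
        exact hl.1
      · rw [← SimpleGraph.Walk.length_support, SimpleGraph.Walk.support_ofSupport]

theorem parts {V : Type} [Fintype V] (G : SimpleGraph V) (k : ℕ) (a : ℕ → ℕ) (ha : Antitone a)
    (h : tau G + (a 1 - 1) / 3 ≤ ∑ i ∈ Finset.range k, a i) :
    ∃ f : V → Fin k, ∀ (i : Fin k) (u v : V) (p : G.Walk u v), p.IsPath →
      (∀ x ∈ p.support, f x = i) → p.length + 1 ≤ a i := by
  classical
  obtain ⟨f, hf, hf2⟩ := OT.main3 ha k (tau G) Finset.univ (det_tau G) h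
  refine ⟨fun v => ⟨f v, hf v (Finset.mem_univ v)⟩, ?_⟩
  intro i u v p hp hpi
  rw [← SimpleGraph.Walk.length_support]
  refine hf2 i i.2 p.support ⟨hp.support_nodup, p.isChain_adj_support⟩ ?_
  intro x hx
  rw [Finset.mem_filter]
  exact ⟨Finset.mem_univ x, congrArg Fin.val (hpi x hx)⟩

theorem chi_le {V : Type} [Fintype V] (G : SimpleGraph V) (n k : ℕ)
    (h : tau G + n / 3 ≤ k * (n + 1)) : chi n G ≤ k := by
  obtain ⟨f, hf⟩ := parts G k (fun _ => n + 1) (fun _ _ _ => le_rfl) (by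
    rw [Finset.sum_const, Finset.card_range, smul_eq_mul]
    exact h)
  refine Nat.sInf_le ⟨f, ?_⟩
  intro u v p hp hpu
  have := hf (f u) u v p hp hpu
  omega

/-- (1) If `a 0 ≥ a 1 ≥ ...` and `τ(G) + ⌊(a 1 - 1) / 3⌋ ≤ a 0 + ... + a (k - 1)`, the vertices of
`G` can be coloured with `k` colours so that every path with all vertices of colour `i` has at most
`a i` vertices (`a 1 - 1` is `0` if `a 1 = 0`). (2) For all `n`,
`χ_n(G) ≤ ⌈(τ(G) + ⌊n / 3⌋) / (n + 1)⌉`. (3) If `1 ≤ n ≤ 3 * ⌈τ(G) / n⌉ + 2`, then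
`χ_n(G) ≤ ⌈τ(G) / n⌉`. -/
theorem result {V : Type} [Fintype V] (G : SimpleGraph V) :
    (∀ (k : ℕ) (a : ℕ → ℕ), Antitone a →
      tau G + (a 1 - 1) / 3 ≤ ∑ i ∈ Finset.range k, a i →
      ∃ f : V → Fin k, ∀ (i : Fin k) (u v : V) (p : G.Walk u v), p.IsPath →
        (∀ x ∈ p.support, f x = i) → p.length + 1 ≤ a i) ∧
    (∀ n : ℕ, chi n G ≤ ⌈((tau G + n / 3 : ℕ) : ℚ) / (n + 1 : ℕ)⌉₊) ∧
    (∀ n : ℕ, 1 ≤ n → n ≤ 3 * ⌈(tau G : ℚ) / n⌉₊ + 2 → chi n G ≤ ⌈(tau G : ℚ) / n⌉₊) := by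
  refine ⟨fun k a ha h => parts G k a ha h, ?_, ?_⟩
  · intro n
    refine chi_le G n _ ?_
    have h1 : ((tau G + n / 3 : ℕ) : ℚ) / (n + 1 : ℕ) ≤
        ⌈((tau G + n / 3 : ℕ) : ℚ) / (n + 1 : ℕ)⌉₊ := Nat.le_ceil _
    rw [div_le_iff₀ (by positivity)] at h1
    exact_mod_cast h1
  · intro n hn hn2
    refine chi_le G n _ ?_
    have h1 : (tau G : ℚ) / n ≤ ⌈(tau G : ℚ) / n⌉₊ := Nat.le_ceil _
    rw [div_le_iff₀ (by positivity)] at h1
    have h2 : tau G ≤ ⌈(tau G : ℚ) / n⌉₊ * n := by exact_mod_cast h1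
    have h3 : ⌈(tau G : ℚ) / n⌉₊ * (n + 1) = ⌈(tau G : ℚ) / n⌉₊ * n + ⌈(tau G : ℚ) / n⌉₊ := by
      ring
    omega

end Pool.Agent.Results.MP_29e7a7_co.ThirdSurplus
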